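import Pool.Agent.H76.PS.Defs

/-!
# Job B1 of project PS: cocycles with values in `ℤ_2(χ)` for a group with `dim H² (𝔽_2) ≤ 1`
-/

set_option autoImplicit false

namespace Pool.Agent.K7.H57.PS

open Pool.Agent.H76.PS Finset Filter Topology

section pad

lemma dvd_of_toZMod {x : ℤ_[2]} (h : PadicInt.toZMod x = 0) : ∃ y, x = 2 * y := by
  have h1 : x ∈ RingHom.ker (PadicInt.toZMod : ℤ_[2] →+* ZMod 2) := h
  rw [PadicInt.ker_toZMod, PadicInt.maximalIdeal_eq_span_p, Ideal.mem_span_singleton] at h1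
  obtain ⟨y, hy⟩ := h1
  exact ⟨y, by simpa using hy⟩

lemma toZMod_two : PadicInt.toZMod (2 : ℤ_[2]) = 0 := by
  rw [map_ofNat]; decide

lemma norm_two : ‖(2 : ℤ_[2])‖ = 1 / 2 := by
  have := PadicInt.norm_p (p := 2)
  simpa using this

lemma norm_two_pow (i : ℕ) (x : ℤ_[2]) : ‖(2 : ℤ_[2]) ^ i * x‖ ≤ (1 / 2 : ℝ) ^ i := by
  rw [norm_mul, norm_pow, norm_two]
  exact mul_le_of_le_one_right (by positivity) (PadicInt.norm_le_one x)

lemma summable_geo : Summable (fun i : ℕ => (1 / 2 : ℝ) ^ i) := summable_geometric_two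

lemma summable_two (e : ℕ → ℤ_[2]) : Summable (fun i => (2 : ℤ_[2]) ^ i * e i) :=
  Summable.of_norm_bounded summable_geo fun i => norm_two_pow i (e i)

lemma tendsto_two (e : ℕ → ℤ_[2]) : Tendsto (fun i => (2 : ℤ_[2]) ^ i * e i) atTop (𝓝 0) :=
  (summable_two e).tendsto_atTop_zero

/-- the reduction modulo two is locally constant -/
lemma lc_toZMod : IsLocallyConstant (PadicInt.toZMod : ℤ_[2] → ZMod 2) := by
  rw [IsLocallyConstant.iff_eventually_eq]
  intro x
  filter_upwards [Metric.ball_mem_nhds x one_pos] with y hy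
  have h1 : y - x ∈ IsLocalRing.maximalIdeal ℤ_[2] := by
    rw [IsLocalRing.mem_maximalIdeal, PadicInt.mem_nonunits]
    rwa [← dist_eq_norm, ← Metric.mem_ball]
  rw [← PadicInt.ker_toZMod, RingHom.mem_ker, map_sub, sub_eq_zero] at h1
  exact h1

/-- dividing a continuous function by two -/
lemma cont_half {X : Type} [TopologicalSpace X] {g : X → ℤ_[2]}
    (hg : Continuous fun x => 2 * g x) : Continuous g := by
  have h1 : Continuous fun x => ((2 * g x : ℤ_[2]) : ℚ_[2]) := continuous_subtype_val.comp hg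
  have h2 : Continuous fun x => ((g x : ℤ_[2]) : ℚ_[2]) := by
    have h3 : (fun x => ((g x : ℤ_[2]) : ℚ_[2])) =
        fun x => (2 : ℚ_[2])⁻¹ * ((2 * g x : ℤ_[2]) : ℚ_[2]) := by
      funext x
      rw [PadicInt.coe_mul]
      have h4 : ((2 : ℤ_[2]) : ℚ_[2]) = 2 := rfl
      rw [h4, ← mul_assoc, inv_mul_cancel₀ (by norm_num), one_mul]
    rw [h3]
    exact continuous_const.mul h1
  exact continuous_induced_rng.2 h2

end pad

variable {G : Type} [Group G] [TopologicalSpace G]

lemma toZMod_char {χ : G → ℤ_[2]} (hχ : IsChar χ) (x : G) : PadicInt.toZMod (χ x) = 1 := by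
  have h1 : χ x * χ x⁻¹ = 1 := by rw [← hχ.mul, mul_inv_cancel, hχ.one]
  have h2 := congrArg (PadicInt.toZMod : ℤ_[2] → ZMod 2) h1
  rw [map_mul, map_one] at h2
  revert h2
  generalize PadicInt.toZMod (χ x) = a
  generalize PadicInt.toZMod (χ x⁻¹) = b
  revert a b
  decide

/-- the coboundary of a function -/
noncomputable def bd (χ f : G → ℤ_[2]) (x y : G) : ℤ_[2] := f x + χ x * f y - f (x * y)

lemma bd_mem_Zp {χ : G → ℤ_[2]} [ContinuousMul G] (hχ : IsChar χ) {f : G → ℤ_[2]} (hf : Continuous f) :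
    bd χ f ∈ Zp χ := by
  refine ⟨?_, ?_⟩
  · have h1 := hχ.cont
    unfold bd
    fun_prop
  · intro x y w
    simp only [bd, hχ.mul, mul_assoc]
    ring

lemma Zp_sub {χ : G → ℤ_[2]} {z z' : G → G → ℤ_[2]} (a : ℤ_[2]) (hz : z ∈ Zp χ) (hz' : z' ∈ Zp χ) :
    (fun x y => z x y - a * z' x y) ∈ Zp χ := by
  refine ⟨hz.1.sub (continuous_const.mul hz'.1), fun x y w => ?_⟩
  have h1 := hz.2 x y w
  have h2 := hz'.2 x y w
  linear_combination h1 - a * h2

lemma Bp_add {χ : G → ℤ_[2]} {z z' : G → G → ℤ_[2]} (hz : z ∈ Bp χ) (hz' : z' ∈ Bp χ) :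
    (fun x y => z x y + z' x y) ∈ Bp χ := by
  obtain ⟨f, hf, h⟩ := hz
  obtain ⟨f', hf', h'⟩ := hz'
  refine ⟨fun x => f x + f' x, hf.add hf', fun x y => ?_⟩
  simp only [h, h']
  ring

lemma Bp_smul {χ : G → ℤ_[2]} {z : G → G → ℤ_[2]} (a : ℤ_[2]) (hz : z ∈ Bp χ) :
    (fun x y => a * z x y) ∈ Bp χ := by
  obtain ⟨f, hf, h⟩ := hz
  refine ⟨fun x => a * f x, continuous_const.mul hf, fun x y => ?_⟩
  simp only [h]
  ring

/-- clause one -/
lemma r2_mem {χ : G → ℤ_[2]} (hχ : IsChar χ) {z : G → G → ℤ_[2]} (hz : z ∈ Zp χ) : r2 z ∈ Z2 G := by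
  refine ⟨lc_toZMod.comp_continuous hz.1, fun x y w => ?_⟩
  have h1 := congrArg (PadicInt.toZMod : ℤ_[2] → ZMod 2) (hz.2 x y w)
  simp only [map_sub, map_add, map_mul, map_zero, toZMod_char hχ, one_mul] at h1
  simp only [r2]
  revert h1
  generalize PadicInt.toZMod (z y w) = a
  generalize PadicInt.toZMod (z (x * y) w) = b
  generalize PadicInt.toZMod (z x (y * w)) = c
  generalize PadicInt.toZMod (z x y) = d
  revert a b c d
  decide

/-- the lift of a function -/
noncomputable def lf (a : ZMod 2) : ℤ_[2] := (a.val : ℤ_[2])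

lemma toZMod_lf (a : ZMod 2) : PadicInt.toZMod (lf a) = a := by
  rw [lf, map_natCast, ZMod.natCast_val, ZMod.cast_id]

/-- clause two -/
lemma halve {χ : G → ℤ_[2]} [ContinuousMul G] (hχ : IsChar χ) {z : G → G → ℤ_[2]} (hz : z ∈ Zp χ)
    (h : r2 z ∈ B2 G) : ∃ z' ∈ Zp χ, ∃ f : G → ℤ_[2], Continuous f ∧
        ∀ x y, z x y = 2 * z' x y + (f x + χ x * f y - f (x * y)) := by
  obtain ⟨a, ha, hb⟩ := h
  have hf : Continuous fun x => lf (a x) := (ha.comp lf).continuous
  have hd : ∀ x y, ∃ w, z x y - bd χ (fun x => lf (a x)) x y = 2 * w := by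
    intro x y
    apply dvd_of_toZMod
    simp only [bd, map_sub, map_add, map_mul, toZMod_char hχ, one_mul, toZMod_lf]
    have h1 := hb x y
    simp only [r2] at h1
    rw [h1]
    generalize a x = u
    generalize a y = v
    generalize a (x * y) = w
    revert u v w
    decide
  choose z' hz' using hd
  have hm := Zp_sub 1 hz (bd_mem_Zp hχ hf)
  refine ⟨z', ⟨?_, ?_⟩, fun x => lf (a x), hf, ?_⟩
  · apply cont_half
    have h1 := hm.1
    simp only [one_mul, hz'] at h1
    exact h1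
  · intro x y w
    have h1 := hm.2 x y w
    simp only [one_mul, hz'] at h1
    have h2 : (2 : ℤ_[2]) * (χ x * z' y w - z' (x * y) w + z' x (y * w) - z' x y) = 0 := by
      linear_combination h1
    exact (mul_eq_zero.1 h2).resolve_left two_ne_zero
  · intro x y
    have h1 := hz' x y
    simp only [bd] at h1
    linear_combination h1

/-- the limit of successive approximations -/
lemma lim_mem {χ : G → ℤ_[2]} {z : G → G → ℤ_[2]} (f : ℕ → G → ℤ_[2])
    (hf : ∀ i, Continuous (f i)) (zz : ℕ → G → G → ℤ_[2])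
    (h : ∀ N x y, z x y = 2 ^ N * zz N x y + ∑ i ∈ range N, 2 ^ i * bd χ (f i) x y) :
    z ∈ Bp χ := by
  refine ⟨fun x => ∑' i, 2 ^ i * f i x, ?_, fun x y => ?_⟩
  · exact continuous_tsum (fun i => continuous_const.mul (hf i)) summable_geo
      fun i x => norm_two_pow i (f i x)
  · have h1 : Tendsto (fun N => ∑ i ∈ range N, 2 ^ i * bd χ (f i) x y) atTop
        (𝓝 ((∑' i, 2 ^ i * f i x) + χ x * (∑' i, 2 ^ i * f i y) - ∑' i, 2 ^ i * f i (x * y))) := by
      have hs : ∀ u : G, Tendsto (fun N => ∑ i ∈ range N, 2 ^ i * f i u) atTop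
          (𝓝 (∑' i, 2 ^ i * f i u)) := fun u =>
        (summable_two fun i => f i u).hasSum.tendsto_sum_nat
      have h2 := ((hs x).add ((hs y).const_mul (χ x))).sub (hs (x * y))
      refine h2.congr fun N => ?_
      rw [mul_sum, ← sum_add_distrib, ← sum_sub_distrib]
      refine sum_congr rfl fun i _ => ?_
      rw [bd]
      ring
    have h3 : Tendsto (fun N => (2 : ℤ_[2]) ^ N * zz N x y +
        ∑ i ∈ range N, 2 ^ i * bd χ (f i) x y) atTop
        (𝓝 (0 + ((∑' i, 2 ^ i * f i x) + χ x * (∑' i, 2 ^ i * f i y) -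
          ∑' i, 2 ^ i * f i (x * y)))) := (tendsto_two fun N => zz N x y).add h1
    rw [zero_add] at h3
    refine tendsto_nhds_unique ?_ h3
    refine tendsto_const_nhds.congr fun N => h N x y

theorem b1 : StB1 := by
  intro G _ _ _ _ χ hχ hdim
  refine ⟨fun z hz => r2_mem hχ hz, fun z hz h => halve hχ hz h, ?_, ?_⟩
  · intro z₀ hz₀ h₀ z hz
    have step : ∀ z : {z : G → G → ℤ_[2] // z ∈ Zp χ}, ∃ (z' : {z : G → G → ℤ_[2] // z ∈ Zp χ})
        (ε : ℤ_[2]) (f : G → ℤ_[2]), Continuous f ∧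
        ∀ x y, z.1 x y = 2 * z'.1 x y + ε * z₀ x y + bd χ f x y := by
      rintro ⟨z, hz⟩
      by_cases h : r2 z ∈ B2 G
      · obtain ⟨z', hz', f, hf, h1⟩ := halve hχ hz h
        exact ⟨⟨z', hz'⟩, 0, f, hf, fun x y => by
          have := h1 x y
          simp only [bd]
          linear_combination this⟩
      · have h2 := hdim _ (r2_mem hχ hz) _ (r2_mem hχ hz₀) h h₀
        have h3 : r2 (fun x y => z x y - 1 * z₀ x y) = r2 z + r2 z₀ := by
          funext x y
          simp only [r2, one_mul, map_sub, Pi.add_apply]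
          generalize PadicInt.toZMod (z x y) = a
          generalize PadicInt.toZMod (z₀ x y) = b
          revert a b
          decide
        rw [← h3] at h2
        obtain ⟨z', hz', f, hf, h1⟩ := halve hχ (Zp_sub 1 hz hz₀) h2
        exact ⟨⟨z', hz'⟩, 1, f, hf, fun x y => by
          have := h1 x y
          simp only [bd]
          linear_combination this⟩
    choose st ε f hf hst using step
    let s : ℕ → {z : G → G → ℤ_[2] // z ∈ Zp χ} := fun n => Nat.rec ⟨z, hz⟩ (fun _ w => st w) n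
    have hs : ∀ n x y, (s n).1 x y =
        2 * (s (n + 1)).1 x y + ε (s n) * z₀ x y + bd χ (f (s n)) x y := fun n x y => hst (s n) x y
    have hN : ∀ N x y, z x y = 2 ^ N * (s N).1 x y + (∑ i ∈ range N, 2 ^ i * ε (s i)) * z₀ x y +
        ∑ i ∈ range N, 2 ^ i * bd χ (f (s i)) x y := by
      intro N
      induction N with
      | zero => intro x y; simp [s]
      | succ N ih =>
        intro x y
        rw [sum_range_succ, sum_range_succ]
        linear_combination ih x y + 2 ^ N * hs N x y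
    refine ⟨∑' i, 2 ^ i * ε (s i), ?_⟩
    refine lim_mem (fun i => f (s i)) (fun i => hf (s i))
      (fun N x y => (s N).1 x y - (∑' i, 2 ^ i * ε (s (i + N))) * z₀ x y) ?_
    intro N x y
    have h1 : ∑' i, (2 : ℤ_[2]) ^ i * ε (s i) =
        (∑ i ∈ range N, 2 ^ i * ε (s i)) + 2 ^ N * ∑' i, 2 ^ i * ε (s (i + N)) := by
      rw [← (summable_two fun i => ε (s i)).sum_add_tsum_nat_add N,
        ← (summable_two fun i => ε (s (i + N))).tsum_mul_left]
      congr 1
      refine tsum_congr fun i => ?_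
      rw [pow_add]
      ring
    rw [h1]
    linear_combination hN N x y
  · intro z hz
    by_contra hcon
    push Not at hcon
    obtain ⟨hz1, hcon⟩ := hcon
    have step : ∀ u : {z' : G → G → ℤ_[2] // z' ∈ Zp χ ∧ ∃ k : ℕ,
        (fun x y => z x y - 2 ^ k * z' x y) ∈ Bp χ},
        ∃ (u' : {z' : G → G → ℤ_[2] // z' ∈ Zp χ ∧ ∃ k : ℕ,
          (fun x y => z x y - 2 ^ k * z' x y) ∈ Bp χ}) (f : G → ℤ_[2]), Continuous f ∧
        ∀ x y, u.1 x y = 2 * u'.1 x y + bd χ f x y := by
      rintro ⟨z', hz', k, hk⟩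
      have h : r2 z' ∈ B2 G := by
        by_contra h
        exact hcon k z' hz' h hk
      obtain ⟨z'', hz'', f, hf, h1⟩ := halve hχ hz' h
      refine ⟨⟨z'', hz'', k + 1, ?_⟩, f, hf, h1⟩
      have h2 := Bp_add hk (Bp_smul (2 ^ k) (⟨f, hf, fun x y => rfl⟩ : bd χ f ∈ Bp χ))
      convert h2 using 3 with x y
      have := h1 x y
      simp only [bd]
      linear_combination 2 ^ k * this
    choose st f hf hst using step
    let s : ℕ → {z' : G → G → ℤ_[2] // z' ∈ Zp χ ∧ ∃ k : ℕ,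
        (fun x y => z x y - 2 ^ k * z' x y) ∈ Bp χ} :=
      fun n => Nat.rec ⟨z, hz, 0, 0, continuous_const, by simp⟩ (fun _ w => st w) n
    have hs : ∀ n x y, (s n).1 x y =
        2 * (s (n + 1)).1 x y + bd χ (f (s n)) x y := fun n x y => hst (s n) x y
    refine hz1 (lim_mem (fun i => f (s i)) (fun i => hf (s i)) (fun N => (s N).1) ?_)
    intro N
    induction N with
    | zero => intro x y; simp [s]
    | succ N ih =>
      intro x y
      rw [sum_range_succ]
      linear_combination ih x y + 2 ^ N * hs N x y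

end Pool.Agent.K7.H57.PS
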