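import Pool.Agent.K7.H57.PS.B1

/-!
# Job B2 of project PS: the sign of an involution on `H² (ℚ_2(χ))`
-/

set_option autoImplicit false

namespace Pool.Agent.K7.H57.PS

open Pool.Agent.H76.PS Finset Filter Topology

section four

/-- reduction from `ZMod 4` to `ZMod 2` -/
noncomputable abbrev ct : ZMod (2 ^ 2) →+* ZMod 2 :=
  ZMod.castHom (by norm_num : 2 ∣ 2 ^ 2) (ZMod 2)

/-- the injection of `ZMod 2` in `ZMod 4` -/
def io (a : ZMod 2) : ZMod (2 ^ 2) := if a = 0 then 0 else 2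

lemma ct_four : ∀ t : ZMod (2 ^ 2), ct t = 0 → t = 0 ∨ t = 2 := by
  intro t
  have h : ct t = (t.cast : ZMod 2) := ZMod.castHom_apply t
  rw [h]
  revert t
  decide

lemma exists_io (t : ZMod (2 ^ 2)) (h : ct t = 0) : ∃ e : ZMod 2, t = io e := by
  rcases ct_four t h with h | h
  · exact ⟨0, by rw [h]; decide⟩
  · exact ⟨1, by rw [h]; decide⟩

lemma io_add : ∀ a b : ZMod 2, io (a + b) = io a + io b := by decide

lemma io_neg : ∀ a : ZMod 2, -io a = io a := by decide

lemma io_inj : ∀ a : ZMod 2, io a = 0 → a = 0 := by decide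

lemma io_mul (u : ZMod (2 ^ 2)) (h : ct u = 1) (a : ZMod 2) : u * io a = io a := by
  have h1 : ct u = (u.cast : ZMod 2) := ZMod.castHom_apply u
  rw [h1] at h
  revert u a
  decide

lemma two_mul_eq (t : ZMod (2 ^ 2)) : 2 * t = io (ct t) := by
  have h1 : ct t = (t.cast : ZMod 2) := ZMod.castHom_apply t
  rw [h1]
  revert t
  decide

lemma ct_toZModPow (x : ℤ_[2]) : ct (PadicInt.toZModPow 2 x) = PadicInt.toZMod x := by
  have h1 : PadicInt.toZMod (x - lf (PadicInt.toZMod x)) = 0 := by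
    rw [map_sub, toZMod_lf, sub_self]
  obtain ⟨y, hy⟩ := dvd_of_toZMod h1
  have h2 : x = lf (PadicInt.toZMod x) + 2 * y := by linear_combination hy
  have h3 : ct (PadicInt.toZModPow 2 x) =
      ct (PadicInt.toZModPow 2 (lf (PadicInt.toZMod x) + 2 * y)) := by rw [← h2]
  rw [h3, lf]
  simp only [map_add, map_mul, map_natCast, map_ofNat]
  have h4 : (2 : ZMod 2) = 0 := by decide
  rw [ZMod.natCast_val, ZMod.cast_id, h4, zero_mul, add_zero]

lemma lc_toZModPow : IsLocallyConstant (PadicInt.toZModPow 2 : ℤ_[2] → ZMod (2 ^ 2)) := by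
  rw [IsLocallyConstant.iff_eventually_eq]
  intro x
  filter_upwards [Metric.ball_mem_nhds x (by norm_num : (0 : ℝ) < 1 / 4)] with y hy
  have h1 : y - x ∈ Ideal.span {((2 : ℕ) : ℤ_[2]) ^ 2} := by
    rw [← PadicInt.norm_le_pow_iff_mem_span_pow, ← dist_eq_norm]
    refine (le_of_lt hy).trans ?_
    norm_num
  rw [← PadicInt.ker_toZModPow, RingHom.mem_ker, map_sub, sub_eq_zero] at h1
  exact h1

end four

variable {G : Type} [Group G] [TopologicalSpace G]

lemma Bp_Bq {χ : G → ℤ_[2]} {z : G → G → ℤ_[2]} (h : z ∈ Bp χ) :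
    (fun x y => ((z x y : ℤ_[2]) : ℚ_[2])) ∈ Bq χ := by
  obtain ⟨f, hf, h⟩ := h
  refine ⟨fun x => ((f x : ℤ_[2]) : ℚ_[2]), continuous_subtype_val.comp hf, fun x y => ?_⟩
  simp only [h]
  push_cast
  rfl

lemma Bq_add {χ : G → ℤ_[2]} {z z' : G → G → ℚ_[2]} (hz : z ∈ Bq χ) (hz' : z' ∈ Bq χ) :
    (fun x y => z x y + z' x y) ∈ Bq χ := by
  obtain ⟨f, hf, h⟩ := hz
  obtain ⟨f', hf', h'⟩ := hz'
  refine ⟨fun x => f x + f' x, hf.add hf', fun x y => ?_⟩
  simp only [h, h']
  ring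

lemma Bq_smul {χ : G → ℤ_[2]} {z : G → G → ℚ_[2]} (a : ℚ_[2]) (hz : z ∈ Bq χ) :
    (fun x y => a * z x y) ∈ Bq χ := by
  obtain ⟨f, hf, h⟩ := hz
  refine ⟨fun x => a * f x, continuous_const.mul hf, fun x y => ?_⟩
  simp only [h]
  ring

lemma Bq_congr {χ : G → ℤ_[2]} {z z' : G → G → ℚ_[2]} (hz : z ∈ Bq χ)
    (h : ∀ x y, z' x y = z x y) : z' ∈ Bq χ := by
  obtain ⟨f, hf, h'⟩ := hz
  exact ⟨f, hf, fun x y => by rw [h, h']⟩

/-- the coboundary of a function with values in `ZMod 4` -/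
noncomputable def bd4 (χ : G → ℤ_[2]) (f : G → ZMod (2 ^ 2)) (x y : G) : ZMod (2 ^ 2) :=
  f x + PadicInt.toZModPow 2 (χ x) * f y - f (x * y)

/-- the contradiction -/
lemma no_minus [ContinuousMul G] {χ : G → ℤ_[2]} (hχ : IsChar χ)
    (hdim : ∀ e₁ ∈ Z2 G, ∀ e₂ ∈ Z2 G, e₁ ∉ B2 G → e₂ ∉ B2 G → e₁ + e₂ ∈ B2 G)
    (hL : Lifts χ) {c : G → G} (hc : Continuous c) (hcm : ∀ x y, c (x * y) = c x * c y)
    (hcχ : ∀ x, χ (c x) = χ x) (h4 : Cls4 χ c) {z₀ : G → G → ℤ_[2]} (hz₀ : z₀ ∈ Zp χ)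
    (h₀ : r2 z₀ ∉ B2 G) (hm : (fun x y => z₀ (c x) (c y) + z₀ x y) ∈ Bp χ) : False := by
  obtain ⟨w, hw1, hw2, hw3, f4, hf4, hw4⟩ := h4
  obtain ⟨f, hf, hf'⟩ := hm
  have hχ1 : ∀ x, ct (PadicInt.toZModPow 2 (χ x)) = 1 := fun x => by
    rw [ct_toZModPow, toZMod_char hχ]
  -- the class `W`
  have hW : (fun x y => ct (w x y)) ∈ Z2 G := by
    refine ⟨hw1.comp ct, fun x y v => ?_⟩
    have h1 := congrArg ct (hw2 x y v)
    simp only [map_sub, map_add, map_mul, map_zero, hχ1, one_mul] at h1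
    show ct (w y v) + ct (w (x * y) v) + ct (w x (y * v)) + ct (w x y) = 0
    revert h1
    generalize ct (w y v) = a
    generalize ct (w (x * y) v) = b
    generalize ct (w x (y * v)) = c
    generalize ct (w x y) = d
    revert a b c d
    decide
  obtain ⟨a, ha, hab⟩ := hdim _ hW _ (r2_mem hχ hz₀) hw3 h₀
  -- lift of `a` to `ZMod 4`
  let A : G → ZMod (2 ^ 2) := fun x => PadicInt.toZModPow 2 (lf (a x))
  have hA : IsLocallyConstant A := ha.comp fun t => PadicInt.toZModPow 2 (lf t)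
  have hctA : ∀ x, ct (A x) = a x := fun x => by simp only [A]; rw [ct_toZModPow, toZMod_lf]
  have hE : ∀ x y, ∃ e : ZMod 2, w x y - PadicInt.toZModPow 2 (z₀ x y) - bd4 χ A x y = io e := by
    intro x y
    apply exists_io
    simp only [bd4, map_sub, map_add, map_mul, hχ1, one_mul, hctA, ct_toZModPow]
    have h1 := hab x y
    simp only [Pi.add_apply, r2] at h1
    have h2 : ct (w x y) = a x + a y + a (x * y) + PadicInt.toZMod (z₀ x y) := by
      rw [← h1]
      generalize ct (w x y) = p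
      generalize PadicInt.toZMod (z₀ x y) = q
      revert p q
      decide
    rw [h2]
    generalize a x = p
    generalize a y = q
    generalize a (x * y) = r
    generalize PadicInt.toZMod (z₀ x y) = s
    revert p q r s
    decide
  choose E hE using hE
  have hioinj : ∀ p q : ZMod 2, io p = io q → p = q := by decide
  have hioinj' : Function.Injective io := fun p q h => hioinj p q h
  have lcZ : IsLocallyConstant (fun v : G × G => PadicInt.toZModPow 2 (z₀ v.1 v.2)) :=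
    lc_toZModPow.comp_continuous hz₀.1
  have lcχ : IsLocallyConstant (fun x => PadicInt.toZModPow 2 (χ x)) :=
    lc_toZModPow.comp_continuous hχ.cont
  have lcbd : ∀ B : G → ZMod (2 ^ 2), IsLocallyConstant B →
      IsLocallyConstant (fun v : G × G => bd4 χ B v.1 v.2) := by
    intro B hB
    have h1 : IsLocallyConstant (fun v : G × G => B v.1) := hB.comp_continuous continuous_fst
    have h2 : IsLocallyConstant (fun v : G × G => B v.2) := hB.comp_continuous continuous_snd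
    have h3 : IsLocallyConstant (fun v : G × G => B (v.1 * v.2)) := hB.comp_continuous continuous_mul
    have h4 : IsLocallyConstant (fun v : G × G => PadicInt.toZModPow 2 (χ v.1)) :=
      lcχ.comp_continuous continuous_fst
    exact (h1.add (h4.mul h2)).sub h3
  have lcE : IsLocallyConstant (fun v : G × G => E v.1 v.2) := by
    apply IsLocallyConstant.desc _ io _ hioinj'
    have h1 := (hw1.sub lcZ).sub (lcbd A hA)
    have h2 : (io ∘ fun v : G × G => E v.1 v.2) = ((fun v : G × G => w v.1 v.2) -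
        (fun v : G × G => PadicInt.toZModPow 2 (z₀ v.1 v.2))) -
        (fun v : G × G => bd4 χ A v.1 v.2) := by
      funext v
      exact (hE v.1 v.2).symm
    rw [h2]
    exact h1
  have cocZ : ∀ x y v, PadicInt.toZModPow 2 (χ x) * PadicInt.toZModPow 2 (z₀ y v) -
      PadicInt.toZModPow 2 (z₀ (x * y) v) + PadicInt.toZModPow 2 (z₀ x (y * v)) -
      PadicInt.toZModPow 2 (z₀ x y) = 0 := by
    intro x y v
    have h1 := congrArg (PadicInt.toZModPow 2 : ℤ_[2] → ZMod (2 ^ 2)) (hz₀.2 x y v)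
    simpa only [map_sub, map_add, map_mul, map_zero] using h1
  have cocbd : ∀ (B : G → ZMod (2 ^ 2)) (x y v : G), PadicInt.toZModPow 2 (χ x) * bd4 χ B y v -
      bd4 χ B (x * y) v + bd4 χ B x (y * v) - bd4 χ B x y = 0 := by
    intro B x y v
    simp only [bd4, hχ.mul, map_mul, mul_assoc]
    ring
  have hEZ : E ∈ Z2 G := by
    refine ⟨lcE, fun x y v => ?_⟩
    apply io_inj
    rw [io_add, io_add, io_add, ← io_neg (E (x * y) v), ← io_neg (E x y),
      ← io_mul _ (hχ1 x) (E y v), ← hE, ← hE, ← hE, ← hE]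
    linear_combination hw2 x y v - cocZ x y v - cocbd A x y v
  have hu : ∃ u : ZMod (2 ^ 2), 2 * u = 2 ∧ ∃ B : G → ZMod (2 ^ 2), IsLocallyConstant B ∧
      ∀ x y, w x y = u * PadicInt.toZModPow 2 (z₀ x y) + bd4 χ B x y := by
    by_cases hEB : E ∈ B2 G
    · obtain ⟨b, hb, hb'⟩ := hEB
      refine ⟨1, by ring, fun x => A x + io (b x), hA.add (hb.comp io), fun x y => ?_⟩
      have h1 := hE x y
      rw [hb', io_add, io_add, ← io_neg (b (x * y)), ← io_mul _ (hχ1 x) (b y)] at h1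
      simp only [bd4] at h1 ⊢
      linear_combination h1
    · obtain ⟨b, hb, hb'⟩ := hdim _ hEZ _ (r2_mem hχ hz₀) hEB h₀
      refine ⟨3, by decide, fun x => A x + io (b x), hA.add (hb.comp io), fun x y => ?_⟩
      have h2 : E x y = b x + b y + b (x * y) + r2 z₀ x y := by
        rw [← hb' x y]
        simp only [Pi.add_apply]
        generalize E x y = p
        generalize r2 z₀ x y = q
        revert p q
        decide
      have h3 : io (r2 z₀ x y) = 2 * PadicInt.toZModPow 2 (z₀ x y) := by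
        rw [two_mul_eq, ct_toZModPow]
        rfl
      have h1 := hE x y
      rw [h2, io_add, io_add, io_add, h3, ← io_neg (b (x * y)), ← io_mul _ (hχ1 x) (b y)] at h1
      simp only [bd4] at h1 ⊢
      linear_combination h1
  obtain ⟨u, hu2, B, hB, hwB⟩ := hu
  have hF : ∀ x y, PadicInt.toZModPow 2 (z₀ (c x) (c y)) + PadicInt.toZModPow 2 (z₀ x y) =
      bd4 χ (fun x => PadicInt.toZModPow 2 (f x)) x y := by
    intro x y
    have h1 := congrArg (PadicInt.toZModPow 2 : ℤ_[2] → ZMod (2 ^ 2)) (hf' x y)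
    simpa only [map_sub, map_add, map_mul, bd4] using h1
  obtain ⟨h, lch, hh⟩ : ∃ h : G → ZMod (2 ^ 2), IsLocallyConstant h ∧
      ∀ x y, 2 * PadicInt.toZModPow 2 (z₀ x y) = bd4 χ h x y := by
    refine ⟨fun x => u * PadicInt.toZModPow 2 (f x) + B (c x) - B x - f4 x, ?_, fun x y => ?_⟩
    · have h1 : IsLocallyConstant (fun x => u * PadicInt.toZModPow 2 (f x)) :=
        (lc_toZModPow.comp_continuous hf).comp (fun t => u * t)
      exact ((h1.add (hB.comp_continuous hc)).sub hB).sub hf4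
    · have h1 := hw4 x y
      have h2 := hwB x y
      have h3 := hwB (c x) (c y)
      have h4 := hF x y
      simp only [bd4, ← hcm, hcχ] at h1 h2 h3 h4 ⊢
      linear_combination -h1 - h2 + h3 + u * h4 - PadicInt.toZModPow 2 (z₀ x y) * hu2
  have hφ : (fun x => ct (h x)) ∈ HS G := by
    refine ⟨lch.comp ct, fun x y => ?_⟩
    have h1 := congrArg ct (hh x y)
    simp only [bd4, map_sub, map_add, map_mul, map_ofNat, hχ1, one_mul] at h1
    have h2 : (2 : ZMod 2) = 0 := by decide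
    rw [h2, zero_mul] at h1
    show ct (h (x * y)) = ct (h x) + ct (h y)
    linear_combination h1
  obtain ⟨κ, hκ, hκm, hκr⟩ := hL _ hφ
  have hg : ∀ x, ∃ g : ZMod 2, h x - PadicInt.toZModPow 2 (κ x) = io g := by
    intro x
    apply exists_io
    rw [map_sub, ct_toZModPow, hκr, sub_self]
  choose g hg using hg
  have lcg : IsLocallyConstant g := by
    apply IsLocallyConstant.desc _ io _ hioinj'
    have h1 := lch.sub (lc_toZModPow.comp_continuous hκ)
    have h2 : io ∘ g = h - (fun x => PadicInt.toZModPow 2 (κ x)) := by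
      funext x
      exact (hg x).symm
    rw [h2]
    exact h1
  apply h₀
  refine ⟨g, lcg, fun x y => ?_⟩
  apply hioinj
  have h3 : io (r2 z₀ x y) = 2 * PadicInt.toZModPow 2 (z₀ x y) := by
    rw [two_mul_eq, ct_toZModPow]
    rfl
  rw [h3, io_add, io_add, ← io_neg (g (x * y)), ← io_mul _ (hχ1 x) (g y), ← hg, ← hg, ← hg, hh]
  have h5 := congrArg (PadicInt.toZModPow 2 : ℤ_[2] → ZMod (2 ^ 2)) (hκm x y)
  simp only [map_add, map_mul] at h5
  simp only [bd4]
  linear_combination -h5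

theorem b2 : StB2 := by
  intro hB1 G _ _ _ _ χ hχ hdim hL c hc hcm hcc hcχ h4
  obtain ⟨c1, c2, c3, c4⟩ := hB1 G χ hχ hdim
  have hcZ : ∀ z ∈ Zp χ, (fun x y => z (c x) (c y)) ∈ Zp χ := by
    intro z hz
    refine ⟨hz.1.comp ((hc.comp continuous_fst).prodMk (hc.comp continuous_snd)), fun x y v => ?_⟩
    have h1 := hz.2 (c x) (c y) (c v)
    simpa only [← hcm, hcχ] using h1
  by_cases hall : ∀ z ∈ Zp χ, z ∈ Bp χ
  · refine ⟨⟨0, ⟨continuous_const, fun x y w => by simp⟩, fun z hz => ⟨0, ?_⟩⟩, fun z hz => ?_⟩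
    · exact Bq_congr (Bp_Bq (hall z hz)) fun x y => by simp
    · refine Bq_congr (Bq_add (Bp_Bq (hall _ (hcZ z hz))) (Bq_smul (-1) (Bp_Bq (hall z hz)))) ?_
      intro x y
      ring
  · push Not at hall
    obtain ⟨z1, hz1, hz1'⟩ := hall
    obtain ⟨k, z₀, hz₀, h₀, -⟩ := (c4 z1 hz1).resolve_left hz1'
    have key : (fun x y => ((z₀ (c x) (c y) : ℤ_[2]) : ℚ_[2]) - (z₀ x y : ℤ_[2])) ∈ Bq χ := by
      obtain ⟨l, hl⟩ := c3 z₀ hz₀ h₀ _ (hcZ z₀ hz₀)
      obtain ⟨f, hf, hf'⟩ := hl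
      -- `(1 - l ^ 2) z₀` is a coboundary
      have h2 : ∀ x y, (1 - l ^ 2) * z₀ x y =
          (f (c x) + l * f x) + χ x * (f (c y) + l * f y) - (f (c (x * y)) + l * f (x * y)) := by
        intro x y
        have e1 := hf' x y
        have e2 := hf' (c x) (c y)
        simp only [hcc, ← hcm, hcχ] at e1 e2
        linear_combination e2 + l * e1
      by_cases hl1 : l = 1
      · have h3 : (fun x y => z₀ (c x) (c y) - z₀ x y) ∈ Bp χ :=
          ⟨f, hf, fun x y => by rw [← hf' x y, hl1]; ring⟩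
        refine Bq_congr (Bp_Bq h3) fun x y => ?_
        push_cast
        rfl
      by_cases hl2 : l = -1
      · exfalso
        refine no_minus hχ hdim hL hc hcm hcχ h4 hz₀ h₀ ⟨f, hf, fun x y => ?_⟩
        rw [← hf' x y, hl2]
        ring
      have h3 : (1 - l ^ 2) ≠ 0 := by
        intro h
        have : (l - 1) * (l + 1) = 0 := by linear_combination -h
        rcases mul_eq_zero.1 this with h | h
        · exact hl1 (by linear_combination h)
        · exact hl2 (by linear_combination h)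
      have h4 : (((1 - l ^ 2 : ℤ_[2])) : ℚ_[2]) ≠ 0 := by
        intro h
        exact h3 (PadicInt.coe_eq_zero.1 h)
      have h5 : (fun x y => (1 - l ^ 2) * z₀ x y) ∈ Bp χ :=
        ⟨fun x => f (c x) + l * f x, (hf.comp hc).add (continuous_const.mul hf), h2⟩
      have h6 : (fun x y => ((z₀ x y : ℤ_[2]) : ℚ_[2])) ∈ Bq χ := by
        refine Bq_congr (Bq_smul (((1 - l ^ 2 : ℤ_[2])) : ℚ_[2])⁻¹ (Bp_Bq h5)) fun x y => ?_
        rw [PadicInt.coe_mul, ← mul_assoc, inv_mul_cancel₀ h4, one_mul]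
      have h7 : (fun x y => z₀ (c x) (c y) - l * z₀ x y) ∈ Bp χ := ⟨f, hf, hf'⟩
      refine Bq_congr (Bq_add (Bp_Bq h7) (Bq_smul ((l : ℚ_[2]) - 1) h6)) fun x y => ?_
      push_cast
      ring
    refine ⟨⟨z₀, hz₀, fun z hz => ?_⟩, fun z hz => ?_⟩
    · obtain ⟨a, ha⟩ := c3 z₀ hz₀ h₀ z hz
      refine ⟨a, Bq_congr (Bp_Bq ha) fun x y => ?_⟩
      push_cast
      rfl
    · obtain ⟨a, f, hf, hf'⟩ := c3 z₀ hz₀ h₀ z hz
      have h1 : (fun x y => bd χ (fun x => f (c x)) x y - bd χ f x y) ∈ Bp χ :=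
        ⟨fun x => f (c x) - f x, (hf.comp hc).sub hf, fun x y => by simp only [bd]; ring⟩
      refine Bq_congr (Bq_add (Bq_smul (a : ℚ_[2]) key) (Bp_Bq h1)) fun x y => ?_
      have e1 := hf' x y
      have e2 := hf' (c x) (c y)
      simp only [← hcm, hcχ] at e1 e2
      have e3 : z (c x) (c y) - z x y = a * (z₀ (c x) (c y) - z₀ x y) +
          (bd χ (fun x => f (c x)) x y - bd χ f x y) := by
        simp only [bd]
        linear_combination e2 - e1
      have e4 := congrArg (fun t : ℤ_[2] => (t : ℚ_[2])) e3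
      simp only [PadicInt.coe_sub, PadicInt.coe_add, PadicInt.coe_mul] at e4
      rw [e4, PadicInt.coe_sub]

end Pool.Agent.K7.H57.PS
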